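import Mathlib
import Pool.Agent.U157.EC.Sm

/-!
# Deligne's conjecture for the nonsolvable Artin twists of CM elliptic curves

Let `A` be an elliptic curve over `ℚ` with complex multiplication, let `L / k` be a Galois extension of number
fields with group `Q`, and let `r` be at least the order of `L(A / L, s)` at `s = 1`.

`Pool.Agent.N855.AF.Factors r N` says that every nonabelian composition factor `S` of the finite group `N` (every
nonabelian simple quotient of a subnormal subgroup of `N`, `SubQ N S`) satisfies `Pool.Agent.N855.AF.Allow r S`: it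
is isomorphic to `A_m` with `r < (2 ^ j - 1) ⌊m / 2 ^ j⌋` for some `j ≥ 3`; or every virtual character of degree at most
`r` of a perfect group with central quotient `S` which has a nonnegative integral multiplicity against every
linear character of every subgroup is constant, and (if `r ≥ 4`) `S` is not a quotient of an irreducible group
of isometries of a nondegenerate alternating form on a space of order `p ^ (2 n)`, `p ^ n ≤ r`.
`Pool.Agent.R389.AN Q`: the group `Q` has an abelian normal subgroup with nilpotent quotient.

**Theorem.** (A) Let `N` be a perfect normal subgroup of `Q` with `Factors r N`. Deligne's conjecture holds at `s = 1`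
for `h¹(A / k) ⊗ ρ`, and `L(A / k, ρ, 1) ≠ 0`, for all representations `ρ` of `Q` over number fields `E` without
nonzero vectors fixed by `N`. It holds for all representations of `Q` over all number fields if `Q / N` has an
abelian normal subgroup with nilpotent quotient, and also if `Q / N` is solvable and for some linear character
`λ` of `Q / N` the order of `L(A / L, s)` at `1` is less than the order of `L(A / k, λ, s)` plus `p`, for all prime
divisors `p` of the order of `Q / N` (the degree of `L ^ N / k`).
(B) Let `Q` be isomorphic to a subgroup of `S_n`, `n ≥ 5`, which contains `A_n`, and let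
`r < (2 ^ j - 1) ⌊n / 2 ^ j⌋` for some `j ≥ 2`. Deligne's conjecture holds at `s = 1` for `h¹(A / k) ⊗ ρ`, for all
representations `ρ` of `Q` over all number fields; and `L(A / k, ρ, 1) ≠ 0` if `ρ` has no nonzero vectors fixed by the even
permutations.

(In (A) one can take for `N` the last term of the derived series of `Q`: then `Q / N` is solvable.)

The data are explicit (`Pool.Agent.U213.EC.Data`): a Weierstrass equation of `A` over `ℤ`, its period lattice, a
nonzero real period `Ω₊` and a nonzero purely imaginary period `Ω₋`, a number field `F`, Galois over `ℚ` with group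
`Gal(F/ℚ)`, embedded in `ℂ`, complex conjugation `c`, an element `x` of `F` with nonzero resolvents
`R(λ) = ∑_σ λ(σ) ι(σ x)`, a finite set `S` of prime numbers which contains the bad and the ramified ones, and
arithmetic Frobenius elements at the other prime numbers. The field `k` is the fixed field of the subgroup `H`
of `Gal(F/ℚ)`, and `L` is the fixed field of the kernel of the surjective homomorphism `π : H → Q`. The motive
over `ℚ` is the restriction of scalars of `h¹(A / k) ⊗ ρ`, that is, `h¹(A) ⊗ σ` for the representation `σ` of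
`Gal(F/ℚ)` induced from `ρ ∘ π`. `D.IsL f ℓ` says that `ℓ` is the function `L(A, f, s)` for the character `f` of
`Gal(F/ℚ)` (without the Euler factors at the primes in `S`). `D.Deligne σ`: there is `e ∈ E` such that for all
embeddings `τ` of `E` in `ℂ` the number `L(A, τσ, 1)` is `τ(e) R(det τσ) Ω₊ ^ d⁺ Ω₋ ^ d⁻`, with the multiplicities
`d⁺`, `d⁻` of the eigenvalues `1`, `-1` of complex conjugation.

The hypothesis `MonomialTheorem` is a published theorem, Deligne's conjecture for the critical values of Hecke
L-functions (Blasius, Harder, Kings–Sprang, Kufner): the case where `σ` is induced from a linear character of a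
subgroup. By Brauer's theorem it gives the conjecture for all `σ` if the order over `L` is zero; at zeros
Brauer's theorem only leads to quotients `0 / 0`. The results of `CMCurvesOrderTwo` (order at most two) and
`CMCurvesSmallGrowth` (solvable groups) are in the other files.

The proof. The function of the orders of the zeros is a virtual character of `Q` with nonnegative
multiplicities at all monomial characters and with the degree at most `r`. It is constant on `N` by the
rigidity theorems for perfect groups (`Pool.Agent.Y788`, `Pool.Agent.N855`, proved there for Artin L-functions);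
by the relative Brauer theorem (`Pool.Agent.R389`) it comes from a function of the quotient `Q / N`, to which
the theorem on small growth applies; so the orders of the constituents are zero outside of a quotient with an abelian
normal subgroup and nilpotent quotient, where all characters are monomial. The other twists are integral combinations of
monomial characters with nonzero values. The bridge to the explicit data is the one of `Pool.Agent.U213.EC`.
-/

set_option autoImplicit false

open Pool.Agent.U213.EC Pool.Agent.R389 Pool.Agent.H541R3.ART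

namespace Pool.Agent.Results.MP_100fe7_nt.CMCurvesNonsolvable

variable {F : Type} [Field F] [NumberField F] [IsGalois ℚ F] (D : Data F)
  (H : Subgroup (F ≃ₐ[ℚ] F)) {Q : Type} [Group Q] (π : H →* Q)

/-- `σ` is the representation of `Gal(F/ℚ)` induced from `ρ ∘ π` (it has the induced character). -/
def Induced {E : Type} [Field E] {n m : ℕ} (ρ : Q →* Matrix (Fin n) (Fin n) E)
    (σ : (F ≃ₐ[ℚ] F) →* Matrix (Fin m) (Fin m) E) : Prop :=
  ∀ g, (σ g).trace = ind H (fun h => (ρ (π h)).trace) g

/-- Deligne's conjecture at `s = 1` for `h¹(A / k) ⊗ ρ`, for all representations `ρ` of `Q` over all number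
fields `E`. -/
def Holds : Prop :=
  ∀ (E : Type) [Field E] [NumberField E] (n : ℕ) (ρ : Q →* Matrix (Fin n) (Fin n) E)
    (m : ℕ) (σ : (F ≃ₐ[ℚ] F) →* Matrix (Fin m) (Fin m) E), Induced H π ρ σ → D.Deligne σ

/-- Deligne's conjecture at `s = 1` for `h¹(A / k) ⊗ ρ` and `L(A / k, τρ, 1) ≠ 0` for all embeddings `τ` of `E`, for all
representations `ρ` of `Q` over all number fields `E` which have no nonzero vector fixed by `N`. -/
def HoldsNonzero (N : Subgroup Q) : Prop :=
  ∀ (E : Type) [Field E] [NumberField E] (n : ℕ) (ρ : Q →* Matrix (Fin n) (Fin n) E),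
    (∀ v : Fin n → E, (∀ k ∈ N, (ρ k).mulVec v = v) → v = 0) →
    ∀ (m : ℕ) (σ : (F ≃ₐ[ℚ] F) →* Matrix (Fin m) (Fin m) E), Induced H π ρ σ →
      D.Deligne σ ∧ ∀ (τ : E →+* ℂ) (ℓ : ℂ → ℂ), D.IsL (fun g => τ (σ g).trace) ℓ →
        meromorphicOrderAt ℓ 1 = 0

/-- `Q / N` is solvable, and for a linear character `λ` of `Q / N` the order at `s = 1` of the function `ℓ` is less
than the order of `L(A / k, λ, s)` plus `p` for all prime divisors `p` of the order of `Q / N`. -/
def SmallGrowth (ℓ : ℂ → ℂ) (N : Subgroup Q) [N.Normal] : Prop :=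
  Group.IsSolvable (Q ⧸ N) ∧ ∃ (lam : (Q ⧸ N) →* ℂˣ) (ℓ₁ : ℂ → ℂ),
    D.IsL (ind H (fun h => ((lam (QuotientGroup.mk (π h)) : ℂˣ) : ℂ))) ℓ₁ ∧
    ∀ p : ℕ, p.Prime → p ∣ Nat.card (Q ⧸ N) →
      meromorphicOrderAt ℓ 1 < meromorphicOrderAt ℓ₁ 1 + p

end Pool.Agent.Results.MP_100fe7_nt.CMCurvesNonsolvable

open Pool.Agent.Results.MP_100fe7_nt.CMCurvesNonsolvable

/-- **Deligne's conjecture for the nonsolvable Artin twists of CM elliptic curves.** -/
theorem Pool.Agent.Results.MP_100fe7_nt.CMCurvesNonsolvable.result (monomial : MonomialTheorem)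
    (F : Type) [Field F] [NumberField F] [IsGalois ℚ F] (D : Data F) (cm : D.CM)
    -- the extension `L / k` with group `Q`
    (H : Subgroup (F ≃ₐ[ℚ] F)) (Q : Type) [Group Q] [Finite Q] (π : H →* Q) (hπ : Function.Surjective π)
    -- the L-function of `A` over `L` has order at most `r` at `s = 1`
    (ℓ : ℂ → ℂ) (hℓ : D.IsL (ind (π.ker.map H.subtype) (fun _ => 1)) ℓ) (r : ℕ)
    (order : meromorphicOrderAt ℓ 1 ≤ r) :
    (∀ (N : Subgroup Q) [N.Normal], Group.IsPerfect N → Pool.Agent.N855.AF.Factors r N →
      HoldsNonzero D H π N ∧ (AN (Q ⧸ N) ∨ SmallGrowth D H π ℓ N → Holds D H π)) ∧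
    (∀ (n j : ℕ) (f : Q →* Equiv.Perm (Fin n)), 5 ≤ n → 2 ≤ j →
      r < (2 ^ j - 1) * (n / 2 ^ j) → Function.Injective f → alternatingGroup (Fin n) ≤ f.range →
      Holds D H π ∧ HoldsNonzero D H π ((alternatingGroup (Fin n)).comap f)) := by
  refine ⟨fun N _ hp hN => ?_, fun n j f hn hj hlt hf hA => ?_⟩
  · have hK := Pool.Agent.U157.EC.const_of_rigid hπ hℓ order N
      (Pool.Agent.N855.AF.rigid_of_factors hp hN)
    refine ⟨fun E _ _ n ρ hρ m σ hσ => ?_, fun hQ E _ _ n ρ m σ hσ => ?_⟩
    · exact Pool.Agent.U157.EC.ec_new monomial cm hπ N hK E n ρ hρ m σ hσ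
    · refine Pool.Agent.U157.EC.ec_all monomial cm hπ (fun E _ _ ζ hζ l P A => ?_) E n ρ m σ hσ
      rcases hQ with hQ | ⟨hs, lam, ℓ₁, hℓ₁, hz⟩
      · exact ⟨N, inferInstance, hQ, hK E ζ hζ l P A⟩
      · exact Pool.Agent.U157.EC.small_up hπ hK hℓ hs lam hℓ₁ hz E ζ hζ l P A
  · obtain ⟨h1, h2, h3⟩ := Pool.Agent.U157.DL.sym_setup hn hj hlt f hf hA
    have hK := Pool.Agent.U157.EC.const_of_rigid hπ hℓ order _ h2
    refine ⟨fun E _ _ n ρ m σ hσ => ?_, fun E _ _ n ρ hρ m σ hσ => ?_⟩
    · exact Pool.Agent.U157.EC.ec_all monomial cm hπ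
        (fun E _ _ ζ hζ l P A => ⟨_, h1, h3 h1, hK E ζ hζ l P A⟩) E n ρ m σ hσ
    · exact Pool.Agent.U157.EC.ec_new monomial cm hπ _ hK E n ρ hρ m σ hσ
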