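import Pool.Agent.U213.EC.OverMain

/-!
# Deligne's conjecture for the Artin twists of CM elliptic curves at zeros of order at most two

Let `A` be an elliptic curve over `ℚ` with complex multiplication, and let `L / k` be a Galois extension of
number fields with group `Q`. If the order of `L(A / L, s)` at `s = 1` is at most two, then Deligne's
conjecture holds at `s = 1` for `h¹(A / k) ⊗ ρ`, for all representations `ρ` of `Q` over all number
fields `E` (for `k = ℚ`: for all Artin twists of `A` which factor through `Gal(L / ℚ)`).

The data `D : Data` are a Weierstrass equation of `A` over `ℤ`, its period lattice, a nonzero real period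
`Ω₊` and a nonzero purely imaginary period `Ω₋`, a number field `F`, Galois over `ℚ` with group `Gal(F/ℚ)`, with
an embedding in `ℂ` and complex conjugation `c` in `Gal(F/ℚ)`, an element `x` of `F` with nonzero resolvents
`R(λ) = ∑_σ λ(σ) ι(σ x)`, a finite set `S` of prime numbers which contains the bad and the ramified ones, and
arithmetic Frobenius elements at the other prime numbers. The field `k` is the fixed field of the
subgroup `H` of `Gal(F/ℚ)`, and `L` is the fixed field of the kernel of a surjective homomorphism `π` from `H` to
`Q`. The motive over `ℚ` is the restriction of scalars of `h¹(A / k) ⊗ ρ`, which is `h¹(A) ⊗ σ` for the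
representation `σ` of `Gal(F/ℚ)` induced from `ρ ∘ π`.

`D.IsL f ℓ` says that `ℓ` is the function `L(A, f, s)` for the character `f` of `Gal(F/ℚ)` (without the Euler
factors at the primes in `S`, which are nonzero elements of the coefficient field at `s = 1`).
`D.Deligne σ`: there is `e ∈ E` such that for all embeddings `τ` of `E` in `ℂ` the number `L(A, τσ, 1)` is
`τ(e) R(det τσ) Ω₊ ^ d⁺ Ω₋ ^ d⁻`, with the multiplicities `d⁺`, `d⁻` of the eigenvalues `1`, `-1` of complex
conjugation.

The hypotheses `MonomialTheorem` and `SymplecticParity` are published theorems: Deligne's conjecture for
the critical values of Hecke L-functions (Blasius, Harder, Kings–Sprang, Kufner), which is the case where `σ`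
is induced from a linear character of a subgroup, and the fact that the order at `s = 1` of the twist by
a quaternion character is even (Hecke's functional equation; the root number is `1` by Rohrlich).

If the order over `L` is zero, the theorem follows from Brauer's induction theorem. At zeros Brauer's
theorem only gives quotients `0 / 0`. The proof uses the classification of the functions formed by
the orders of the zeros (`Pool.Agent.R389.main_two`) for the group `Q`, applied to the products of the
L-functions and of the periods of the constituents of the induced representations; new are the comparison
of the product of the periods of the constituents with the period of the representation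
(`Pool.Agent.U213.EC`: determinants and eigenvalues in terms of characters, products of resolvents,
transfer of irreducible characters between embeddings), the descent to arbitrary coefficient
fields `E`, and the general base field `k`.
-/

set_option autoImplicit false

open Pool.Agent.U213.EC

namespace Pool.Agent.Results.MP_100fe7_nt.CMCurvesOrderTwo

theorem result (monomial : MonomialTheorem) (parity : SymplecticParity)
    (F : Type) [Field F] [NumberField F] [IsGalois ℚ F] (D : Data F) (cm : D.CM)
    -- the extension `L / k` with group `Q`
    (H : Subgroup (F ≃ₐ[ℚ] F)) (Q : Type) [Group Q] [Finite Q] (π : H →* Q) (hπ : Function.Surjective π)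
    -- the L-function of `A` over `L` has order at most two at `s = 1`
    (ℓ : ℂ → ℂ) (hℓ : D.IsL (Pool.Agent.R389.ind (π.ker.map H.subtype) (fun _ => 1)) ℓ)
    (two : meromorphicOrderAt ℓ 1 ≤ 2)
    -- a representation `ρ` of `Q` over `E`, and the representation `σ` induced from `ρ ∘ π`
    (E : Type) [Field E] [NumberField E] (n : ℕ) (ρ : Q →* Matrix (Fin n) (Fin n) E)
    (m : ℕ) (σ : (F ≃ₐ[ℚ] F) →* Matrix (Fin m) (Fin m) E)
    (hσ : ∀ g, (σ g).trace = Pool.Agent.R389.ind H (fun h => (ρ (π h)).trace) g) :
    D.Deligne σ :=
  Data.over_two monomial parity D cm H π hπ hℓ two E n ρ m σ hσ

end Pool.Agent.Results.MP_100fe7_nt.CMCurvesOrderTwo
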