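import Mathlib
import Pool.Agent.U851.DL.Cls
import Pool.Agent.U803.DT.Num2

/-!
# Deligne's conjecture for Artin twists: groups built from classical groups of large rank

Let `F/k` be a Galois extension of number fields with group `G` and let `M` be a motive over `k` with
coefficients in a number field `E` which contains the roots of unity of order the exponent of `G`. For
every embedding `τ` of `E` and every irreducible complex character `χ` of `G` there are the component
at `τ` of the L-function of `M ⊗ V_χ` (`L τ χ`) and the component at `τ` of its Deligne period at the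
critical point `c` (`P τ χ`, with the power of `2πi`); `Pool.Agent.R389.Deligne L P c f` is the
conjecture at `c` for the twist of `M` by the `E`-valued character `f`: there is one element `e` of `E`
such that for every embedding `τ` the value at `c` is `τ e` times the period at `τ`.

By Brauer's theorem the conjecture for all twists follows from the abelian twists over the intermediate
fields if there are no zeros. If `L(M_F, c) = 0` the negative multiplicities lead to quotients `0 / 0`.
Here `G` may be far from solvable: it contains a normal subgroup `N` obtained by layers of classical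
groups, and the order `r` of the zero of `L(M_F, s)` at `c` may be as large as about the smallest
degrees of the nontrivial characters of these groups, so exponential in their rank.

`Pool.Agent.TH820.FacO r S` says that the finite group `S` is one of the following.
* A group `Pool.Agent.W295.Cl.Fac r S` of the starting files: `A_m` with `m ≥ 5` and
  `r < (2 ^ j - 1) ⌊m / 2 ^ j⌋` for some `j ≥ 2`; for `q` even: `SL_n(q)`, `n = a + b`, `a, b ≥ 1`
  coprime, `r gcd(n, q - 1) (q - 1) < (q ^ a - 1) (q ^ b - 1)`; `Sp_{2n}(q)` with
  `2 (q + 1) r < (q ^ n - 1) (q ^ n - q)`; `Ω^±_{2n}(q)`, `n ≥ 4`, with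
  `r < (q ^ (n - 1) + 1) (q ^ (n - 2) - 1)`; `SU_n(q)`, `n ≥ 3`, with `r < (q - 1) q ^ (n - 2)`, and
  `3 r < q ^ 2 - 1` if `n = 3`, `3 ∣ q + 1`.
* `SL_n(q)` for `q` a power of an odd prime `p` and `n ≥ 3`, if `r < n`, or if `p ≤ n` and
  `r gcd(n, q - 1) < q ^ (n - 1) - 1`.
* Any group all of whose Heilbronn functions of degree at most `r` are constant
  (`Pool.Agent.H302R10.Rigid`); the previous items have this property.

`Pool.Agent.TH820.BuiltC r (FacO r) N` says that the normal subgroup `N` of `G` is obtained from the
trivial subgroup by finitely many steps `M ≤ N` of the following two kinds.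
* `LayC`: `N / M` is a normal subgroup of `G / M` generated by finitely many pairwise commuting
  subgroups, each a homomorphic image of a finite group with the property `FacO r`.
* `Orb`: `N / M` is abelian and every nontrivial linear character of `N / M` has more than `r`
  conjugates under `G / M`.

`Pool.Agent.R389.AN Q`: the group `Q` has an abelian normal subgroup with nilpotent quotient.
A frame of degree `d > 1` of a group `X` (`Pool.Agent.W446.AS.Frame`) is a normal subgroup `F` which
contains the centre `Z` of `X`, with `F / Z` abelian of order `d ^ 2` and with centraliser `Z`, where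
`Z` is cyclic and contains all abelian normal subgroups of `X`.

The proof combines three developments: the rigidity of classical groups (`Pool.Agent.W295`,
`Pool.Agent.TH820`, starting library, made there for Artin's holomorphy conjecture), the relative
Brauer theorem (`Pool.Agent.R389`, `Pool.Agent.U157`), and the induction along frames
(`Pool.Agent.U803`).
-/

set_option autoImplicit false

open Filter Topology

namespace Pool.Agent.Results.MP_100fe7_nt.ClassicalGroupTwists

open Pool.Agent.H541R3.ART (Irr)
open Pool.Agent.R389 (ind IsDecomp Deligne)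

/-- The L-functions and the periods at the point `c` of the twists of a motive with coefficients in
`E` by the irreducible characters of `G`, for all embeddings of `E`: functions which are meromorphic
and not identically zero near `c`, and nonzero numbers. -/
structure TwistData (G : Type) [Group G] (E : Type) [Field E] where
  /-- the L-function of the twist by `χ` at the embedding `τ` -/
  L : (E →+* ℂ) → (G → ℂ) → ℂ → ℂ
  /-- the period of the twist by `χ` at the embedding `τ` -/
  P : (E →+* ℂ) → (G → ℂ) → ℂ
  /-- the point -/
  c : ℂ
  mero : ∀ τ, ∀ χ ∈ Irr G, MeromorphicAt (L τ χ) c ∧ meromorphicOrderAt (L τ χ) c ≠ ⊤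
  period : ∀ τ, ∀ χ ∈ Irr G, P τ χ ≠ 0

/-- The order at `c` of the L-function, at the embedding `τ`, of the twist by the character which
contains `χ` with the multiplicity `m χ`. -/
noncomputable def TwistData.order {G : Type} [Group G] {E : Type} [Field E] (D : TwistData G E)
    (τ : E →+* ℂ) (m : (G → ℂ) → ℕ) : WithTop ℤ :=
  meromorphicOrderAt (fun s => ∏ᶠ χ ∈ Irr G, D.L τ χ s ^ m χ) D.c

/-- Deligne's conjecture for the twist by the `E`-valued character `f`, together with the
nonvanishing of the value at `c` at all embeddings: the element `e` of `E` is not zero. -/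
def TwistData.NonzeroValue {G : Type} [Group G] {E : Type} [Field E] (D : TwistData G E)
    (f : G → E) : Prop :=
  ∃ e : E, e ≠ 0 ∧ ∀ (τ : E →+* ℂ) (m : (G → ℂ) → ℕ), IsDecomp (fun g => τ (f g)) m →
    Tendsto (fun s => ∏ᶠ χ ∈ Irr G, D.L τ χ s ^ m χ) (𝓝[≠] D.c)
      (𝓝 (τ e * ∏ᶠ χ ∈ Irr G, D.P τ χ ^ m χ))

/-- Deligne's conjecture holds for the twists by the characters induced from the linear characters of
the subgroups of `G`: the abelian twists over the intermediate fields. -/
def TwistData.Monomial {G : Type} [Group G] {E : Type} [Field E] (D : TwistData G E) : Prop :=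
  ∀ (U : Subgroup G) (ψ : U →* Eˣ), Deligne D.L D.P D.c (ind U (fun u => ((ψ u : Eˣ) : E)))

/-- Deligne's conjecture holds for the twists by all representations of `G` over `E`. -/
def TwistData.AllTwists {G : Type} [Group G] {E : Type} [Field E] (D : TwistData G E) : Prop :=
  ∀ (V : Type) [AddCommGroup V] [Module E V] [FiniteDimensional E V] (ρ : Representation E G V),
    Deligne D.L D.P D.c ρ.character

/-- Deligne's conjecture holds for the twists by the representations of `G` over `E` on which all
elements of `N` act trivially. -/
def TwistData.OldTwists {G : Type} [Group G] {E : Type} [Field E] (D : TwistData G E)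
    (N : Set G) : Prop :=
  ∀ (V : Type) [AddCommGroup V] [Module E V] [FiniteDimensional E V] (ρ : Representation E G V),
    (∀ k ∈ N, ∀ v, ρ k v = v) → Deligne D.L D.P D.c ρ.character

/-- Deligne's conjecture holds for the twists by the representations of `G` over `E` without nonzero
vectors fixed by all elements of `N`, and the L-functions of these twists do not vanish at `c`. -/
def TwistData.NewTwists {G : Type} [Group G] {E : Type} [Field E] (D : TwistData G E)
    (N : Set G) : Prop :=
  ∀ (V : Type) [AddCommGroup V] [Module E V] [FiniteDimensional E V] (ρ : Representation E G V),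
    (∀ v, (∀ k ∈ N, ρ k v = v) → v = 0) → D.NonzeroValue ρ.character

/-- No section of `Q` (quotient `X` of a subgroup) has a frame of degree at most `r`. -/
def NoSmallFrames (r : ℕ) (Q : Type) [Group Q] : Prop :=
  ∀ (H : Subgroup Q) (X : Type) [Group X] (f : H →* X), Function.Surjective f →
    ∀ (F : Subgroup X) (d : ℕ), Pool.Agent.W446.AS.Frame X F d → r < d

/-- Arithmetic conditions on the order `N` of a group and on `r` which exclude frames of degree at
most `r`. -/
def SmallOrder (N r : ℕ) : Prop :=
  (∃ P : ℕ, 3 ≤ P ∧ (∀ q, q.Prime → q ∣ N → P ≤ q) ∧ r ≤ 2 * P - 2) ∨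
  (N.Coprime 6 ∧ r ≤ 12) ∨
  (Odd N ∧ ¬ 375 ∣ N ∧ r ≤ 8) ∨
  (Odd N ∧ ¬ 375 ∣ N ∧ ¬ 1215 ∣ N ∧ ¬ 3159 ∣ N ∧ r ≤ 10) ∨
  (¬ 24 ∣ N ∧ ¬ 54 ∣ N ∧ r ≤ 3) ∨
  (¬ 24 ∣ N ∧ ¬ 54 ∣ N ∧ ¬ 160 ∣ N ∧ ¬ 224 ∣ N ∧ r ≤ 4)

/-- The range of `r` for the linear groups of degree `n` over the finite field `K`. -/
def LinearRange (K : Type) [Field K] (n r : ℕ) : Prop :=
  3 ≤ n ∧ (r < n ∨ (ringChar K ≤ n ∧ r * Nat.gcd n (Nat.card K - 1) < Nat.card K ^ (n - 1) - 1))

/-- The general linear group of degree `n` over `K`. -/
def GLn (n : ℕ) (K : Type) [Field K] : Type := Matrix.GeneralLinearGroup (Fin n) K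

instance (n : ℕ) (K : Type) [Field K] : Group (GLn n K) :=
  (inferInstance : Group (Matrix.GeneralLinearGroup (Fin n) K))

/-- The determinant. -/
def GLn.det {n : ℕ} {K : Type} [Field K] : GLn n K →* Kˣ := Matrix.GeneralLinearGroup.det

/-- `G` is a homomorphic image of a group `Γ` with `SL_n(K) ≤ Γ ≤ GL_n(K)`, and `S` is the image of
`SL_n(K)`. -/
def LinearImage (K : Type) [Field K] (n : ℕ) (G : Type) [Group G] (S : Set G) : Prop :=
  ∃ (Γ : Subgroup (GLn n K)) (π : Γ →* G), (∀ A : GLn n K, A.det = 1 → A ∈ Γ) ∧
    Function.Surjective π ∧ S = π '' {A | A.1.det = 1}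

end Pool.Agent.Results.MP_100fe7_nt.ClassicalGroupTwists

open Pool.Agent.H541R3.ART (Irr)
open Pool.Agent.Results.MP_100fe7_nt.ClassicalGroupTwists

/-- **Deligne's conjecture for Artin twists, groups built from classical groups.** Let `E` contain a
primitive root of unity of order the exponent of `G`. Suppose that Deligne's conjecture at `c` holds
for the twists by the characters induced from the linear characters of the subgroups of `G` (the
abelian twists over the intermediate fields), and that at one embedding `τ₀` of `E` the order at `c` of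
the L-function over the top field `F`, the product of the `L τ₀ χ ^ χ(1)`, is at most `r`.

(A) Let `N` be a normal subgroup of `G` built as described above from groups with `FacO r`, for instance
from classical groups of large rank.
(A1) For every representation `ρ` of `G` over `E` without nonzero vectors fixed by `N`, Deligne's
conjecture holds at `c`, and the L-function of `M ⊗ ρ` does not vanish at `c`, at all embeddings.
(A2) If Deligne's conjecture at `c` holds for the twists by the representations on which `N` acts
trivially, then it holds for the twists by all representations of `G` over `E`.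
(A3) It holds for the twists by all representations of `G` over `E` if `G / N` has an abelian normal
subgroup with nilpotent quotient; or if `G / N` is solvable and no section of `G / N` has a frame of
degree at most `r`, or the order of `G / N` satisfies one of the conditions `SmallOrder`.

(B) Let `K` be a finite field with `q` elements, of characteristic `p`, and let `n ≥ 3`; suppose that
`r < n`, or that `p ≤ n` and `r gcd(n, q - 1) < q ^ (n - 1) - 1`. Let `G` be a homomorphic image of a
group `Γ` with `SL_n(K) ≤ Γ ≤ GL_n(K)` (for instance `GL_n(q)`, `SL_n(q)`, `PGL_n(q)`, `PSL_n(q)`).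
Then Deligne's conjecture at `c` holds for the twists by all representations of `G` over `E`, and the
L-functions of the twists by the representations without nonzero vectors fixed by the image of
`SL_n(K)` do not vanish at `c`. -/
theorem Pool.Agent.Results.MP_100fe7_nt.ClassicalGroupTwists.result
    (G : Type) [Group G] [Finite G] (E : Type) [Field E] (D : TwistData G E)
    (ζ : E) (hζ : IsPrimitiveRoot ζ (Monoid.exponent G)) (hmon : D.Monomial)
    (τ₀ : E →+* ℂ) (deg : (G → ℂ) → ℕ) (hdeg : ∀ χ ∈ Irr G, χ 1 = deg χ)
    (r : ℕ) (hr : D.order τ₀ deg ≤ (r : WithTop ℤ)) :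
    (∀ (N : Subgroup G) [N.Normal],
      Pool.Agent.TH820.BuiltC r (Pool.Agent.TH820.FacO r) N →
      D.NewTwists N ∧ (D.OldTwists N → D.AllTwists) ∧
      (Pool.Agent.R389.AN (G ⧸ N) ∨
          (Group.IsSolvable (G ⧸ N) ∧
            (NoSmallFrames r (G ⧸ N) ∨ SmallOrder (Nat.card (G ⧸ N)) r)) →
        D.AllTwists)) ∧
    (∀ (K : Type) [Field K] [Finite K] (n : ℕ) (S : Set G),
      LinearRange K n r → LinearImage K n G S → D.AllTwists ∧ D.NewTwists S) := by
  refine ⟨fun N _ hN => ?_, fun K _ _ n S hrange hS => ?_⟩
  · have hK := Pool.Agent.U851.DL.theta_const hζ D.mero hmon τ₀ hdeg hr hN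
    refine ⟨fun V _ _ _ ρ hρ => ?_, fun hold V _ _ _ ρ => ?_, fun hQ V _ _ _ ρ => ?_⟩
    · exact Pool.Agent.U157.DL.new_deligne hζ D.mero D.period hmon τ₀ N hK ρ hρ
    · exact Pool.Agent.U157.DL.all_deligne hζ D.mero D.period hmon τ₀ N hK
        (fun W _ _ _ σ hσ => hold W σ hσ) ρ
    · refine Pool.Agent.U157.DL.all_deligne hζ D.mero D.period hmon τ₀ N hK
        (fun W _ _ _ σ hσ => ?_) ρ
      rcases hQ with hQ | ⟨hsol, hframes⟩
      · exact Pool.Agent.U157.DL.old_deligne hζ D.mero D.period hmon τ₀ N hQ σ hσ
      · have hnf : Pool.Agent.U803.DT.NF {1} r (G ⧸ N) := by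
          rcases hframes with h | h | h | h | h | h | h
          · intro H X _ f hf F d hF
            rw [Set.image_singleton, Set.ncard_singleton, mul_one]
            exact h H X f hf F d hF
          · obtain ⟨P, hP, hPN, hr⟩ := h
            exact Pool.Agent.U803.DT.nf_one fun p n q i hd => hd.least hP hPN hr
          · exact Pool.Agent.U803.DT.nf_one fun p n q i hd => hd.six h.1 h.2
          · exact Pool.Agent.U803.DT.nf_one fun p n q i hd => hd.eight h.1 h.2.1 h.2.2
          · exact Pool.Agent.U803.DT.nf_one fun p n q i hd =>
              hd.ten h.1 h.2.1 h.2.2.1 h.2.2.2.1 h.2.2.2.2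
          · exact Pool.Agent.U803.DT.nf_one fun p n q i hd => hd.gen3 h.1 h.2.1 h.2.2
          · exact Pool.Agent.U803.DT.nf_one fun p n q i hd =>
              hd.gen4 h.1 h.2.1 h.2.2.1 h.2.2.2.1 h.2.2.2.2
        exact Pool.Agent.U851.DL.old_frames hζ D.mero D.period hmon τ₀ hdeg N hsol hnf hr σ hσ
  · obtain ⟨Γ, π, hΓ, hπ, rfl⟩ := hS
    let N : Subgroup G := ((GLn.det.comp Γ.subtype).ker).map π
    have hNm : ∀ g : G, g ∈ N ↔ ∃ A : Γ, GLn.det (A : GLn n K) = 1 ∧ π A = g :=
      fun g => Iff.rfl
    obtain ⟨hnor, hb, hAN⟩ := Pool.Agent.U851.DL.lin_setup (r := r) hrange Γ hΓ π hπ N hNm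
    have hK := Pool.Agent.U851.DL.theta_const hζ D.mero hmon τ₀ hdeg hr hb
    refine ⟨fun V _ _ _ ρ => ?_, fun V _ _ _ ρ hρ => ?_⟩
    · exact Pool.Agent.U157.DL.all_deligne hζ D.mero D.period hmon τ₀ N hK
        (fun W _ _ _ σ hσ =>
          Pool.Agent.U157.DL.old_deligne hζ D.mero D.period hmon τ₀ N hAN σ hσ) ρ
    · refine Pool.Agent.U157.DL.new_deligne hζ D.mero D.period hmon τ₀ N hK ρ
        (fun v hv => hρ v ?_)
      rintro _ ⟨A, hA, rfl⟩
      exact hv (π A) ((hNm _).mpr ⟨A, hA, rfl⟩)
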