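import Pool.Agent.U143.RG.Del

/-!
# Deligne's conjecture for Artin twists: only the solvable layers are needed

Let `F/k` be a Galois extension of number fields with group `G`, and let `M` be a motive over `k` with
coefficients in a number field `E` which contains the roots of unity of order the exponent of `G`. For
every embedding `τ` of `E` and every irreducible complex character `χ` of `G` there are the component at
`τ` of the L-function of the twist of `M` by `χ` (`L τ χ`) and the component at `τ` of its Deligne period at
the critical point `c` (`P τ χ`); `Pool.Agent.R389.Deligne L P c f` is the conjecture at `c` for the twist of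
`M` by the `E`-valued character `f`: there is one element `e` of `E` such that for every embedding `τ` the
value at `c` is `τ e` times the period at `τ`.

The abelian twists of `M` over an intermediate field `F^U` are accessible if `M` is automorphic over `F^U`. If
`M` is only potentially automorphic, for instance the motive of an elliptic curve over a totally real field
`k` which becomes modular over the totally real field `F`, this is known if `F/F^U` is SOLVABLE (descent:
Langlands, Arthur–Clozel); then Shimura's theorem on the critical values of Hilbert modular forms applies. So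
the hypothesis here is the conjecture for the twists by the characters `Ind_U^G ψ`, `U` a solvable subgroup;
nothing is assumed for the nonsolvable subgroups, not even that the L-functions are holomorphic at `c`. If the
L-function over `F` has a zero at `c`, then Brauer's theorem gives only quotients `0 / 0`.

The normal subgroup `N` is built from layers which are direct products of groups `A_m` (`m ≥ 8`, `r ≤ m - 3`,
or `r ≤ m - 2` and `m` not prime) and `SL_2(q)` (`q` even, `r ≤ q - 2`), or abelian with more than `r`
conjugates of each nontrivial linear character; `r` bounds the growth of the order at `c` along a chain of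
solvable layers (for instance the order at `c` of the L-function over `F`). The theorem gives the conjecture
for all twists by representations without vectors fixed by `N`, and that the values are not zero; and for the
abelian twists over ALL intermediate fields `F^U` such that `U N / N` is solvable.

The proof uses the rigidity of the class functions with nonnegative multiplicities at the linear characters of
solvable subgroups (`Pool.Agent.U143.RG`), which is new, and the relative Brauer theorem of the starting
library (`Pool.Agent.R389`).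
-/

set_option autoImplicit false

open Filter Topology

namespace Pool.Agent.Results.MP_100fe7_nt.SolvableInputs

open Pool.Agent.H541R3.ART (Irr)
open Pool.Agent.R389 (ind IsDecomp Deligne)

/-- The L-functions and the periods at the point `c` of the twists of a motive with coefficients in
`E` by the irreducible characters of `G`, for all embeddings of `E`: functions which are meromorphic
and not identically zero near `c`, and nonzero numbers. -/
structure TwistData (G : Type) [Group G] (E : Type) [Field E] where
  /-- the L-function of the twist by `χ` at the embedding `τ` -/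
  L : (E →+* ℂ) → (G → ℂ) → ℂ → ℂ
  /-- the period of the twist by `χ` at the embedding `τ` -/
  P : (E →+* ℂ) → (G → ℂ) → ℂ
  /-- the point -/
  c : ℂ
  mero : ∀ τ, ∀ χ ∈ Irr G, MeromorphicAt (L τ χ) c ∧ meromorphicOrderAt (L τ χ) c ≠ ⊤
  period : ∀ τ, ∀ χ ∈ Irr G, P τ χ ≠ 0

/-- The order at `c` of the L-function, at the embedding `τ`, of the twist by the character which
contains `χ` with the multiplicity `m χ`. -/
noncomputable def TwistData.order {G : Type} [Group G] {E : Type} [Field E] (D : TwistData G E)
    (τ : E →+* ℂ) (m : (G → ℂ) → ℕ) : WithTop ℤ :=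
  meromorphicOrderAt (fun s => ∏ᶠ χ ∈ Irr G, D.L τ χ s ^ m χ) D.c

/-- At the embedding `τ` the order at `c` of the L-function over the fixed field of `C (i + 1)` is smaller by
at most `r` than the one for `C i`, where `⊥ = C 0 ≤ C 1 ≤ … ≤ C t` is a chain of solvable normal subgroups
of `G`, and it is at most `r` for `C t`. For `t = 0`: the order at `c` of the L-function over `F` is at most
`r`. -/
def TwistData.GrowsBy {G : Type} [Group G] {E : Type} [Field E] (D : TwistData G E)
    (τ : E →+* ℂ) (r : ℕ) : Prop :=
  ∃ (t : ℕ) (C : ℕ → Subgroup G), Monotone C ∧ (∀ i, (C i).Normal) ∧ C 0 = ⊥ ∧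
    Group.IsSolvable (C t) ∧
    (∀ i < t, ∀ m m' : (G → ℂ) → ℕ, IsDecomp (ind (C i) (fun _ => 1)) m →
      IsDecomp (ind (C (i + 1)) (fun _ => 1)) m' → D.order τ m ≤ D.order τ m' + (r : WithTop ℤ)) ∧
    (∀ m : (G → ℂ) → ℕ, IsDecomp (ind (C t) (fun _ => 1)) m → D.order τ m ≤ (r : WithTop ℤ))

/-- Deligne's conjecture for the twist by the `E`-valued character `f`, together with the
nonvanishing of the value at `c` at all embeddings: the element `e` of `E` is not zero. -/
def TwistData.NonzeroValue {G : Type} [Group G] {E : Type} [Field E] (D : TwistData G E)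
    (f : G → E) : Prop :=
  ∃ e : E, e ≠ 0 ∧ ∀ (τ : E →+* ℂ) (m : (G → ℂ) → ℕ), IsDecomp (fun g => τ (f g)) m →
    Tendsto (fun s => ∏ᶠ χ ∈ Irr G, D.L τ χ s ^ m χ) (𝓝[≠] D.c)
      (𝓝 (τ e * ∏ᶠ χ ∈ Irr G, D.P τ χ ^ m χ))

/-- `S` is isomorphic to an alternating group of degree `m ≥ 8` with `r ≤ m - 3`, or `r ≤ m - 2` and `m`
not prime, or to `SL_2(k)` for a finite field `k` of characteristic two with at least `r + 2` elements. -/
def Factor (r : ℕ) (S : Type) [Group S] : Prop :=
  (∃ m : ℕ, 8 ≤ m ∧ (r + 3 ≤ m ∨ (r + 2 ≤ m ∧ ¬ m.Prime)) ∧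
    Nonempty (S ≃* alternatingGroup (Fin m))) ∨
  (∃ (k : Type) (_ : Field k) (_ : Finite k) (_ : CharP k 2), r + 2 ≤ Nat.card k ∧
    Nonempty (S ≃* Matrix.SpecialLinearGroup (Fin 2) k))

/-- The normal subgroup `A` of `Q` is a direct product of finitely many groups with the property `Factor r`,
or it is abelian and every linear character `lam ≠ 1` of `A` has more than `r` different conjugates
`a ↦ lam (g a g⁻¹)`, `g ∈ Q`. -/
def Layer (r : ℕ) {Q : Type} [Group Q] (A : Subgroup Q) : Prop :=
  (∃ (l : ℕ) (S : Fin l → Type) (_ : ∀ j, Group (S j)),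
    (∀ j, Factor r (S j)) ∧ Nonempty (A ≃* ∀ j, S j)) ∨
  ((∀ a ∈ A, ∀ b ∈ A, a * b = b * a) ∧ ∀ lam : A →* ℂˣ, lam ≠ 1 →
    r < {mu : A →* ℂˣ | ∃ g : Q, ∀ a b : A, (b : Q) = g * a * g⁻¹ → mu a = lam b}.ncard)

/-- There is a chain `1 = C 0 ≤ C 1 ≤ … ≤ C t = N` of normal subgroups of `G` such that the image of
`C (i + 1)` in `G / C i` has the property `Layer r`, for `i < t`. -/
def Built (r : ℕ) {G : Type} [Group G] (N : Subgroup G) : Prop :=
  ∃ (t : ℕ) (C : ℕ → Subgroup G) (_ : ∀ i, (C i).Normal), C 0 = ⊥ ∧ C t = N ∧ Monotone C ∧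
    ∀ i < t, Layer r ((C (i + 1)).map (QuotientGroup.mk' (C i)))

end Pool.Agent.Results.MP_100fe7_nt.SolvableInputs

open Pool.Agent.H541R3.ART (Irr)
open Pool.Agent.R389 (ind IsDecomp Deligne AN)
open Pool.Agent.Results.MP_100fe7_nt.SolvableInputs

theorem Pool.Agent.Results.MP_100fe7_nt.SolvableInputs.Factor.finite {r : ℕ} {S : Type} [Group S]
    (h : Factor r S) : Finite S := by
  rcases h with ⟨m, -, -, ⟨e⟩⟩ | ⟨k, _, _, _, -, ⟨e⟩⟩
  · exact Finite.of_equiv _ e.symm.toEquiv
  · exact Finite.of_equiv _ e.symm.toEquiv

theorem Pool.Agent.Results.MP_100fe7_nt.SolvableInputs.Factor.rigid {r : ℕ} {S : Type} [Group S]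
    (h : Factor r S) : Pool.Agent.U143.RG.SRigid r S := by
  have hf := h.finite
  rcases h with ⟨m, hm, hr, ⟨e⟩⟩ | ⟨k, _, _, _, hr, ⟨e⟩⟩
  · exact (Pool.Agent.U143.RG.alt_range hm hr).of_surj e.symm.toMonoidHom e.symm.surjective
  · exact (Pool.Agent.U143.RG.sl2_rigid hr).of_surj e.symm.toMonoidHom e.symm.surjective

theorem Pool.Agent.Results.MP_100fe7_nt.SolvableInputs.Layer.const {r : ℕ} {Q : Type} [Group Q]
    [Finite Q] {A : Subgroup Q} (hA : A.Normal) (h : Layer r A) {θ : Q → ℂ}
    (hθ : Pool.Agent.H302R3.IsSolHeilbronn θ) {s : ℕ} (hs : s ≤ r) (h1 : θ 1 = s) :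
    ∀ n ∈ A, ∀ x, θ (n * x) = θ x := by
  rcases h with ⟨l, S, _, hS, ⟨e⟩⟩ | ⟨hc, ho⟩
  · have hfin : ∀ j, Finite (S j) := fun j => (hS j).finite
    exact Pool.Agent.U143.RG.const_of_prod hθ hs h1 A (fun j => (hS j).rigid)
      (A.subtype.comp e.symm.toMonoidHom) fun n hn => ⟨e ⟨n, hn⟩, by simp⟩
  · exact Pool.Agent.U143.RG.const_of_orbit hθ hs h1 A hc ho

theorem Pool.Agent.Results.MP_100fe7_nt.SolvableInputs.Built.const {r : ℕ} {G : Type} [Group G]
    [Finite G] {N : Subgroup G} (h : Built r N) {θ : G → ℂ}
    (hθ : Pool.Agent.H302R3.IsSolHeilbronn θ) {s : ℕ} (hs : s ≤ r) (h1 : θ 1 = s) :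
    ∀ n ∈ N, ∀ x, θ (n * x) = θ x := by
  obtain ⟨t, C, hn, h0, rfl, -, hl⟩ := h
  exact Pool.Agent.U143.RG.const_chain hθ h1 t C hn h0 fun i hi η hη hη1 =>
    (hl i hi).const (Subgroup.Normal.map (hn (i + 1)) _ (QuotientGroup.mk'_surjective _)) hη hs hη1

/-- **Deligne's conjecture for Artin twists from the solvable layers.** Let `E` contain a primitive root of
unity of order the exponent of `G`. Suppose that Deligne's conjecture at `c` holds for the twists by the
characters induced from the linear characters of the SOLVABLE subgroups of `G` (the abelian twists over the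
intermediate fields `F^U` such that `F/F^U` is solvable), and that at one embedding `τ₀` of `E` the order at
`c` of the L-function grows by at most `r` along a chain of fields as in `TwistData.GrowsBy` (for example: the
order at `c` of the L-function over `F` is at most `r`). Let the normal subgroup `N` be built from products of
groups `A_m`, `SL_2(2^k)` in the range of `r` and from abelian groups with more than `r` conjugates of each
nontrivial character.
* For every representation `ρ` of `G` over `E` without nonzero vectors fixed by `N`, Deligne's conjecture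
  holds at `c`, and the L-function of `M ⊗ ρ` does not vanish at `c`, at all embeddings.
* For every subgroup `U` whose image in `G / N` is solvable and every linear character `ψ` of `U`, Deligne's
  conjecture holds at `c` for the twist by `Ind_U^G ψ`.
* If Deligne's conjecture at `c` holds for the twists by the representations on which `N` acts trivially,
  then it holds for the twists by all representations of `G` over `E`.
* It holds for all representations of `G` over `E` if `G / N` has an abelian normal subgroup with nilpotent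
  quotient. -/
theorem Pool.Agent.Results.MP_100fe7_nt.SolvableInputs.result
    (G : Type) [Group G] [Finite G] (E : Type) [Field E] (D : TwistData G E)
    (ζ : E) (hζ : IsPrimitiveRoot ζ (Monoid.exponent G))
    (hmon : ∀ (U : Subgroup G) (ψ : U →* Eˣ), Group.IsSolvable U →
      Deligne D.L D.P D.c (ind U (fun u => ((ψ u : Eˣ) : E))))
    (τ₀ : E →+* ℂ) (r : ℕ) (hr : D.GrowsBy τ₀ r)
    (N : Subgroup G) (hN : N.Normal) (hNb : Built r N) :
    (∀ (V : Type) [AddCommGroup V] [Module E V] [FiniteDimensional E V]
      (ρ : Representation E G V), (∀ v, (∀ k ∈ N, ρ k v = v) → v = 0) →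
      D.NonzeroValue ρ.character) ∧
    (∀ U : Subgroup G, Group.IsSolvable (U.map (QuotientGroup.mk' N)) → ∀ ψ : U →* Eˣ,
      Deligne D.L D.P D.c (ind U (fun u => ((ψ u : Eˣ) : E)))) ∧
    ((∀ (W : Type) [AddCommGroup W] [Module E W] [FiniteDimensional E W]
        (σ : Representation E G W), (∀ k ∈ N, ∀ w, σ k w = w) →
        Deligne D.L D.P D.c σ.character) →
      ∀ (V : Type) [AddCommGroup V] [Module E V] [FiniteDimensional E V]
        (ρ : Representation E G V), Deligne D.L D.P D.c ρ.character) ∧
    (AN (G ⧸ N) → ∀ (V : Type) [AddCommGroup V] [Module E V] [FiniteDimensional E V]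
      (ρ : Representation E G V), Deligne D.L D.P D.c ρ.character) := by
  obtain ⟨t, C, hC, hn, h0, hs, hg, hl⟩ := hr
  have hcos : ∀ n ∈ N, ∀ x, (Pool.Agent.H541R3.ART.theta (Pool.Agent.R389.ords (D.L τ₀) D.c) : G → ℂ)
      (n * x) = (Pool.Agent.H541R3.ART.theta (Pool.Agent.R389.ords (D.L τ₀) D.c) : G → ℂ) x := by
    refine Pool.Agent.U143.RG.ords_prop (D.mero τ₀)
      (Pool.Agent.U143.RG.nonneg_ords hζ D.mero hmon τ₀) r t C hC hn h0 hs hg hl
      (fun θ => ∀ n ∈ N, ∀ x, θ (n * x) = θ x) (fun a b ha hb n hn x => ?_)
      fun η hη s hsr h1 => hNb.const hη hsr h1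
    simp only [ha n hn x, hb n hn x]
  have hK : ∀ k ∈ N, (Pool.Agent.H541R3.ART.theta (Pool.Agent.R389.ords (D.L τ₀) D.c) : G → ℂ) k
      = (Pool.Agent.H541R3.ART.theta (Pool.Agent.R389.ords (D.L τ₀) D.c) : G → ℂ) 1 := fun k hk => by
    have h := hcos k hk 1
    rwa [mul_one] at h
  have hmonT : ∀ (U : Subgroup G) (ψ : U →* Eˣ), Pool.Agent.R389.Tame U →
      Deligne D.L D.P D.c (ind U (fun u => ((ψ u : Eˣ) : E))) := fun U ψ hU => hmon U ψ hU.solvable
  refine ⟨fun V _ _ _ ρ hρ => ?_, fun U hU ψ => ?_, fun hold V _ _ _ ρ => ?_,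
    fun hQ V _ _ _ ρ => ?_⟩
  · exact Pool.Agent.U143.RG.new_deligne hζ D.mero D.period hmonT τ₀ N hK ρ hρ
  · exact Pool.Agent.U143.RG.mono_deligne hζ D.mero D.period hmon τ₀ N hK U hU ψ
  · exact Pool.Agent.U143.RG.all_deligne hζ D.mero D.period hmonT τ₀ N hK hold ρ
  · refine Pool.Agent.U143.RG.all_deligne hζ D.mero D.period hmonT τ₀ N hK
      (fun W _ _ _ σ hσ => ?_) ρ
    have hQs : Group.IsSolvable (G ⧸ N) := Pool.Agent.U143.RG.an_solvable hQ
    exact Pool.Agent.U143.RG.old_deligne hζ D.mero D.period
      (fun U ψ => Pool.Agent.U143.RG.mono_deligne hζ D.mero D.period hmon τ₀ N hK U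
        (Group.isSolvable_of_isSolvable_injective (Subgroup.subtype_injective _)) ψ) τ₀ N hQ σ hσ
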